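import Pool.Agent.helper89.PU.Spec1

/-! Row `pv:PWR` of project PU (MP_2e0e07_nt): powers of matrices near the scalars. -/

set_option autoImplicit false

namespace Pool.Agent.PV

open Matrix Polynomial Pool.Agent.GO Pool.Agent.AR Pool.Agent.RG Pool.Agent.HZ Pool.Agent.DS
  Pool.Agent.AX Pool.Agent.UM Pool.Agent.PU MeasureTheory NumberField

variable {K : Type} [NormedField K] [IsUltrametricDist K]

theorem PWR_pow {Y : Matrix (Fin 2) (Fin 2) K} {b : ℝ} (hb : 0 ≤ b) (hY : ∀ i j, ‖Y i j‖ ≤ b) (m : ℕ) :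
    ∀ i j, ‖(Y ^ m) i j‖ ≤ b ^ m := by
  induction m with
  | zero =>
    intro i j
    rw [pow_zero, pow_zero, Matrix.one_apply]
    split_ifs
    · simp
    · simp
  | succ m ih =>
    intro i j
    rw [pow_succ, pow_succ]
    exact entry_mul_le ih hY i j

theorem PWR_sum {ι : Type} (s : Finset ι) (f : ι → Matrix (Fin 2) (Fin 2) K) {b : ℝ} (hb : 0 < b)
    (hf : ∀ a ∈ s, ∀ i j, ‖f a i j‖ < b) : ∀ i j, ‖(∑ a ∈ s, f a) i j‖ < b := by
  classical
  induction s using Finset.induction_on with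
  | empty =>
    intro i j
    simpa using hb
  | insert a s ha ih =>
    intro i j
    rw [Finset.sum_insert ha, Matrix.add_apply]
    exact (IsUltrametricDist.norm_add_le_max _ _).trans_lt
      (max_lt (hf a (Finset.mem_insert_self a s) i j) (ih (fun c hc => hf c (Finset.mem_insert_of_mem hc)) i j))

theorem PWR_nu_lt {R : Matrix (Fin 2) (Fin 2) K} {b : ℝ} (h : ∀ i j, ‖R i j‖ < b) : nu R < b := by
  unfold nu
  refine max_lt (max_lt (h 0 1) (h 1 0)) ?_
  rw [sub_eq_add_neg]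
  refine (IsUltrametricDist.norm_add_le_max _ _).trans_lt (max_lt (h 0 0) ?_)
  rw [norm_neg]
  exact h 1 1

theorem PWR_nu_add {A R : Matrix (Fin 2) (Fin 2) K} (h : nu R < nu A) : nu (A + R) = nu A := by
  apply le_antisymm
  · exact (nu_add_le A R).trans (max_le le_rfl h.le)
  · have h1 : A = (A + R) + (-1 : K) • R := by
      rw [neg_smul, one_smul, add_neg_cancel_right]
    have h2 : nu ((-1 : K) • R) = nu R := by
      rw [nu_smul, norm_neg, norm_one, one_mul]
    have h3 := nu_add_le (A + R) ((-1 : K) • R)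
    rw [← h1, h2] at h3
    rcases le_max_iff.mp h3 with h4 | h4
    · exact h4
    · exact absurd h4 (not_le.mpr h)

theorem PWR_term (Y : Matrix (Fin 2) (Fin 2) K) (s : K) (m n c : ℕ) :
    Y ^ m * (s • (1 : Matrix (Fin 2) (Fin 2) K)) ^ n * (c : Matrix (Fin 2) (Fin 2) K) = ((c : K) * s ^ n) • Y ^ m := by
  have h1 : (c : Matrix (Fin 2) (Fin 2) K) = (c : K) • (1 : Matrix (Fin 2) (Fin 2) K) := by
    rw [Nat.cast_smul_eq_nsmul, nsmul_one]
  rw [h1, _root_.smul_pow, one_pow, Matrix.mul_smul, Matrix.mul_smul, mul_one, mul_one, smul_smul]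

theorem PWR : PWR_stmt := by
  intro K _ _ M hM hdet hnu hj k
  set ν := nu M with hν
  rcases Nat.eq_zero_or_pos k with hk | hk
  · subst hk
    rw [pow_zero, nu_one, Nat.cast_zero, norm_zero, zero_mul]
  rcases eq_or_lt_of_le (nu_nonneg M) with h0 | hpos
  · rw [← hν] at h0
    rw [← h0, mul_zero]
    obtain ⟨c, hc⟩ := (nu_eq_zero_iff M).1 h0.symm
    rw [nu_eq_zero_iff, hc]
    exact ⟨c ^ k, by rw [_root_.smul_pow, one_pow]⟩
  rw [← hν] at hpos
  set s := M 1 1 with hs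
  have hs1 : ‖s‖ = 1 := diag_unit hM hdet hnu
  set Y := M - s • (1 : Matrix (Fin 2) (Fin 2) K) with hY
  have hYe : ∀ i j, ‖Y i j‖ ≤ ν := fun i j => entry_sub_le M i j
  have hYn : nu Y = ν := nu_sub_scalar s M
  have hMY : M = Y + s • (1 : Matrix (Fin 2) (Fin 2) K) := by rw [hY, sub_add_cancel]
  obtain ⟨k, rfl⟩ : ∃ k', k = k' + 1 := ⟨k - 1, by omega⟩
  have hkpos : 0 < ‖((k + 1 : ℕ) : K)‖ := by
    rcases Nat.eq_zero_or_pos k with h | h
    · subst h
      simp
    · have := hj (k + 1) (by omega)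
      exact lt_of_le_of_lt (pow_nonneg hpos.le _) this
  have hcomm : Commute Y (s • (1 : Matrix (Fin 2) (Fin 2) K)) := by
    show Y * (s • 1) = (s • 1) * Y
    rw [Matrix.mul_smul, Matrix.smul_mul, mul_one, one_mul]
  have hexp : M ^ (k + 1) = (∑ m ∈ Finset.range k, (((k + 1).choose (m + 2) : K) * s ^ (k + 1 - (m + 2))) • Y ^ (m + 2)) +
      (((k + 1 : ℕ) : K) * s ^ k) • Y + s ^ (k + 1) • (1 : Matrix (Fin 2) (Fin 2) K) := by
    conv_lhs => rw [hMY]
    rw [hcomm.add_pow]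
    simp only [PWR_term]
    rw [Finset.sum_range_succ', Finset.sum_range_succ']
    simp
  have hB : 0 < ‖((k + 1 : ℕ) : K)‖ * ν := mul_pos hkpos hpos
  have hR : ∀ i j, ‖(∑ m ∈ Finset.range k, (((k + 1).choose (m + 2) : K) * s ^ (k + 1 - (m + 2))) • Y ^ (m + 2)) i j‖ <
      ‖((k + 1 : ℕ) : K)‖ * ν := by
    apply PWR_sum _ _ hB
    intro m hm i j
    rw [Matrix.smul_apply, norm_smul, norm_mul, norm_pow, hs1, one_pow, mul_one]
    have h1 := PWR_pow hpos.le hYe (m + 2) i j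
    have h2 : ((m + 2 : ℕ) : K) * ((k + 1).choose (m + 2) : K) = ((k + 1 : ℕ) : K) * (k.choose (m + 1) : K) := by
      have := Nat.add_one_mul_choose_eq k (m + 1)
      have h3 : (k + 1) * k.choose (m + 1) = (k + 1).choose (m + 2) * (m + 2) := this
      rw [mul_comm, ← Nat.cast_mul, ← Nat.cast_mul]
      exact congrArg _ h3.symm
    have h3 : ‖((m + 2 : ℕ) : K)‖ * ‖((k + 1).choose (m + 2) : K)‖ ≤ ‖((k + 1 : ℕ) : K)‖ := by
      rw [← norm_mul, h2, norm_mul]
      exact mul_le_of_le_one_right (norm_nonneg _) (IsUltrametricDist.norm_natCast_le_one K _)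
    have h4 := hj (m + 2) (by omega)
    have h5 : m + 2 - 1 = m + 1 := by omega
    rw [h5] at h4
    rcases eq_or_lt_of_le (norm_nonneg ((k + 1).choose (m + 2) : K)) with h6 | h6
    · rw [← h6, zero_mul]
      exact hB
    · calc ‖((k + 1).choose (m + 2) : K)‖ * ‖(Y ^ (m + 2)) i j‖ ≤ ‖((k + 1).choose (m + 2) : K)‖ * ν ^ (m + 2) :=
            mul_le_mul_of_nonneg_left h1 h6.le
        _ = (‖((k + 1).choose (m + 2) : K)‖ * ν ^ (m + 1)) * ν := by ring
        _ < (‖((k + 1).choose (m + 2) : K)‖ * ‖((m + 2 : ℕ) : K)‖) * ν :=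
            mul_lt_mul_of_pos_right (mul_lt_mul_of_pos_left h4 h6) hpos
        _ ≤ ‖((k + 1 : ℕ) : K)‖ * ν := by
            refine mul_le_mul_of_nonneg_right ?_ hpos.le
            rw [mul_comm]
            exact h3
  have hA : nu ((((k + 1 : ℕ) : K) * s ^ k) • Y) = ‖((k + 1 : ℕ) : K)‖ * ν := by
    rw [nu_smul, norm_mul, norm_pow, hs1, one_pow, mul_one, hYn]
  rw [hexp, nu_add_scalar, add_comm, PWR_nu_add, hA]
  rw [hA]
  exact PWR_nu_lt hR

end Pool.Agent.PV
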