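import Pool.Agent.helper16.PU.Spec2

/-! Row `pu:ZNC` of project PU (MP_2e0e07_nt): `zker` is normal and closed. -/

set_option autoImplicit false

namespace Pool.Agent.PU

open Matrix Polynomial Pool.Agent.GO Pool.Agent.AR Pool.Agent.RG Pool.Agent.HZ Pool.Agent.DS
  Pool.Agent.AX Pool.Agent.UM NumberField

theorem ZNC_kerV_normal {Γ R : Type*} [Group Γ] [CommRing R] {r : ℕ} {n : Fin r → ℕ}
    (V : (i : Fin r) → Γ →* Matrix (Fin (n i)) (Fin (n i)) R) : (kerV V).Normal :=
  Subgroup.normal_iInf_normal fun _ => inferInstance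

theorem ZNC_closed_ker {Γ R m : Type*} [Group Γ] [TopologicalSpace Γ] [CommRing R] [Fintype m]
    [DecidableEq m] [TopologicalSpace R] [T2Space R] (V : Γ →* Matrix m m R)
    (hV : Continuous V) : IsClosed (V.ker : Set Γ) := by
  have h : (V.ker : Set Γ) = V ⁻¹' {1} := by
    ext g
    rfl
  rw [h]
  exact isClosed_singleton.preimage hV

theorem ZNC_closed_adKer {Γ F : Type*} [Group Γ] [TopologicalSpace Γ] [Field F]
    [TopologicalSpace F] [T2Space F] (ρ : Γ →* Matrix (Fin 2) (Fin 2) F)
    (hρ : Continuous ρ) : IsClosed (adKer ρ : Set Γ) := by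
  have h : (adKer ρ : Set Γ) = {g | ρ g 0 1 = 0} ∩ {g | ρ g 1 0 = 0} ∩ {g | ρ g 0 0 = ρ g 1 1} := by
    ext g
    constructor
    · rintro ⟨c, hc⟩
      refine ⟨⟨?_, ?_⟩, ?_⟩ <;> simp [hc]
    · rintro ⟨⟨h1, h2⟩, h3⟩
      refine ⟨ρ g 0 0, ?_⟩
      ext i j
      fin_cases i <;> fin_cases j
      · simp
      · simpa using h1
      · simpa using h2
      · simpa using h3.symm
  rw [h]
  have hc : ∀ a b, Continuous fun g => ρ g a b := fun a b => hρ.matrix_elem a b
  exact ((isClosed_eq (hc 0 1) continuous_const).inter (isClosed_eq (hc 1 0) continuous_const)).inter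
    (isClosed_eq (hc 0 0) (hc 1 1))

theorem ZNC : ZNC_stmt := by
  intro Γ _ _ r n V hV J F _ ρ hρ j
  refine ⟨?_, ?_, rfl⟩
  · have h1 : (kerAll V).Normal := by
      unfold kerAll
      exact Subgroup.normal_iInf_normal fun q => Subgroup.normal_iInf_normal fun _ => ZNC_kerV_normal _
    have h2 : (⨅ k : {k : J // k ≠ j}, adKer (ρ k.1)).Normal :=
      Subgroup.normal_iInf_normal fun _ => inferInstance
    unfold zker
    exact Subgroup.normal_inf_normal _ _
  · unfold zker kerAll kerV
    simp only [Subgroup.coe_inf, Subgroup.coe_iInf]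
    refine IsClosed.inter ?_ ?_
    · exact isClosed_iInter fun q => isClosed_iInter fun hq => isClosed_iInter fun i =>
        ZNC_closed_ker _ (hV q i)
    · exact isClosed_iInter fun k => ZNC_closed_adKer _ (hρ k.1)

end Pool.Agent.PU
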